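import Mathlib

set_option autoImplicit false

/-!
# `k`-chromatic graphs without `K_{k-1}` and of maximum degree at most `k + 3`

For every `k ≥ 6` the join of two 5-cycles and `K_{k-6}` is `k`-chromatic, contains no `K_{k-1}` and
has maximum degree at most `k + 3`. For `8 ≤ k ≤ 18` suitable blow-ups of the 5-cycle by cliques
do better.
-/

namespace Pool.Agent.Results.MP_551fda_co.KPlusThree

open Finset

/-- There is a `k`-chromatic finite graph without `K_{k-1}` of maximum degree at most `d`. -/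
def HasGraph (k d : ℕ) : Prop :=
  ∃ (V : Type) (_ : Fintype V) (G : SimpleGraph V) (_ : DecidableRel G.Adj),
    G.chromaticNumber = k ∧ G.CliqueFree (k - 1) ∧ G.maxDegree ≤ d

lemma chromaticNumber_eq {V : Type} {G : SimpleGraph V} {k : ℕ} (h1 : G.Colorable k)
    (h2 : ∀ m, G.Colorable m → k ≤ m) : G.chromaticNumber = k := by
  apply le_antisymm h1.chromaticNumber_le
  obtain ⟨m, hm⟩ : ∃ m : ℕ, G.chromaticNumber = m := by
    have := h1.chromaticNumber_le
    exact ⟨_, (ENat.natCast_toNat (ne_top_of_le_ne_top (ENat.natCast_ne_top k) this)).symm⟩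
  have hc : G.Colorable m := SimpleGraph.chromaticNumber_le_iff_colorable.1 hm.le
  rw [hm]
  exact_mod_cast h2 m hc

/-! ### Blow-ups of the 5-cycle -/

/-- The blow-up of the 5-cycle in which the vertex `i` is replaced by the clique `p ⁻¹ i`. -/
def blow {n : ℕ} (p : Fin n → Fin 5) : SimpleGraph (Fin n) where
  Adj x y := x ≠ y ∧ (p x = p y ∨ p y = p x + 1 ∨ p x = p y + 1)
  symm := ⟨fun x y h => ⟨h.1.symm, by
    rcases h.2 with h | h | h
    · exact Or.inl h.symm
    · exact Or.inr (Or.inr h)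
    · exact Or.inr (Or.inl h)⟩⟩
  loopless := ⟨fun x h => h.1 rfl⟩

instance {n : ℕ} (p : Fin n → Fin 5) : DecidableRel (blow p).Adj := fun x y => by
  unfold blow; infer_instance

lemma no_three : ∀ a b c : Fin 5, ¬ (¬ (a = b ∨ b = a + 1 ∨ a = b + 1) ∧
    ¬ (a = c ∨ c = a + 1 ∨ a = c + 1) ∧ ¬ (b = c ∨ c = b + 1 ∨ b = c + 1)) := by decide

lemma clique_parts : ∀ T : Finset (Fin 5), (∀ a ∈ T, ∀ b ∈ T, a = b ∨ b = a + 1 ∨ a = b + 1) →
    ∃ i, ∀ a ∈ T, a = i ∨ a = i + 1 := by decide

lemma blow_main {n k d : ℕ} (p : Fin n → Fin 5) (col : Fin n → Fin k) (hn : n = 2 * k - 1)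
    (hk : 1 ≤ k)
    (h1 : ∀ i, (univ.filter (fun x => p x = i ∨ p x = i + 1)).card + 2 ≤ k)
    (h2 : ∀ i, (univ.filter (fun x => p x = i ∨ p x = i + 1 ∨ i = p x + 1)).card ≤ d + 1)
    (h3 : ∀ x y, (blow p).Adj x y → col x ≠ col y) : HasGraph k d := by
  refine ⟨Fin n, inferInstance, blow p, inferInstance, ?_, ?_, ?_⟩
  · apply chromaticNumber_eq
    · exact ⟨SimpleGraph.Coloring.mk col (fun {x y} h => h3 x y h)⟩
    · rintro m ⟨C⟩
      have hfib : ∀ a ∈ (univ : Finset (Fin n)).image C, (univ.filter (fun x => C x = a)).card ≤ 2 := by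
        intro a _
        by_contra hcon
        push Not at hcon
        obtain ⟨x, hx, y, hy, z, hz, hxy, hxz, hyz⟩ := Finset.two_lt_card.1 hcon
        simp only [Finset.mem_filter, Finset.mem_univ, true_and] at hx hy hz
        have key : ∀ x y, C x = a → C y = a → x ≠ y →
            ¬ (p x = p y ∨ p y = p x + 1 ∨ p x = p y + 1) := by
          intro x y hx hy hxy h
          exact C.valid (show (blow p).Adj x y from ⟨hxy, h⟩) (hx.trans hy.symm)
        exact no_three (p x) (p y) (p z) ⟨key x y hx hy hxy, key x z hx hz hxz, key y z hy hz hyz⟩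
      have := Finset.card_le_mul_card_image (univ : Finset (Fin n)) 2 hfib
      have h4 : ((univ : Finset (Fin n)).image C).card ≤ m := by
        simpa using Finset.card_le_univ ((univ : Finset (Fin n)).image C)
      rw [Finset.card_univ, Fintype.card_fin] at this
      omega
  · intro s hs
    have hcl := hs.isClique
    have hcard := hs.card_eq
    obtain ⟨i, hi⟩ := clique_parts (s.image p) (by
      intro a ha b hb
      obtain ⟨x, hx, rfl⟩ := Finset.mem_image.1 ha
      obtain ⟨y, hy, rfl⟩ := Finset.mem_image.1 hb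
      by_cases hxy : x = y
      · left; rw [hxy]
      · exact (hcl (by simpa using hx) (by simpa using hy) hxy).2)
    have hsub : s ⊆ univ.filter (fun x => p x = i ∨ p x = i + 1) := by
      intro x hx
      rw [Finset.mem_filter]
      exact ⟨Finset.mem_univ _, hi _ (Finset.mem_image_of_mem p hx)⟩
    have := Finset.card_le_card hsub
    have := h1 i
    omega
  · apply SimpleGraph.maxDegree_le_of_forall_degree_le
    intro v
    rw [← SimpleGraph.card_neighborFinset_eq_degree]
    have hsub : insert v ((blow p).neighborFinset v) ⊆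
        univ.filter (fun x => p x = p v ∨ p x = p v + 1 ∨ p v = p x + 1) := by
      intro x hx
      rw [Finset.mem_filter]
      refine ⟨Finset.mem_univ _, ?_⟩
      rcases Finset.mem_insert.1 hx with rfl | hx
      · exact Or.inl rfl
      · rw [SimpleGraph.mem_neighborFinset] at hx
        rcases hx.2 with h | h | h
        · exact Or.inl h.symm
        · exact Or.inr (Or.inl h)
        · exact Or.inr (Or.inr h)
    have h5 := Finset.card_le_card hsub
    rw [Finset.card_insert_of_notMem (by simp)] at h5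
    have := h2 (p v)
    omega

/-! ### The join of two 5-cycles and a complete graph -/

/-- Adjacency in the 5-cycle. -/
def c5 (x y : Fin 5) : Prop := y = x + 1 ∨ x = y + 1

instance : DecidableRel c5 := fun x y => by unfold c5; infer_instance

/-- The join of two 5-cycles and the complete graph on `t` vertices. -/
def join (t : ℕ) : SimpleGraph (Fin 5 ⊕ (Fin 5 ⊕ Fin t)) where
  Adj x y := match x, y with
    | Sum.inl a, Sum.inl b => c5 a b
    | Sum.inr (Sum.inl a), Sum.inr (Sum.inl b) => c5 a b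
    | Sum.inr (Sum.inr a), Sum.inr (Sum.inr b) => a ≠ b
    | Sum.inl _, Sum.inr _ => True
    | Sum.inr _, Sum.inl _ => True
    | Sum.inr (Sum.inl _), Sum.inr (Sum.inr _) => True
    | Sum.inr (Sum.inr _), Sum.inr (Sum.inl _) => True
  symm := ⟨by
    have hc : ∀ a b, c5 a b → c5 b a := by decide
    rintro (a | a | a) (b | b | b) h
    · exact hc _ _ h
    · trivial
    · trivial
    · trivial
    · exact hc _ _ h
    · trivial
    · trivial
    · trivial
    · exact fun h' => h h'.symm⟩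
  loopless := ⟨by
    have hc : ∀ a, ¬ c5 a a := by decide
    rintro (a | a | a) h
    · exact hc _ h
    · exact hc _ h
    · exact h rfl⟩

instance (t : ℕ) : DecidableRel (join t).Adj := by
  rintro (a | a | a) (b | b | b)
  · exact inferInstanceAs (Decidable (c5 a b))
  · exact inferInstanceAs (Decidable True)
  · exact inferInstanceAs (Decidable True)
  · exact inferInstanceAs (Decidable True)
  · exact inferInstanceAs (Decidable (c5 a b))
  · exact inferInstanceAs (Decidable True)
  · exact inferInstanceAs (Decidable True)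
  · exact inferInstanceAs (Decidable True)
  · exact inferInstanceAs (Decidable (a ≠ b))

/-- A proper colouring of the 5-cycle. -/
def col5 : Fin 5 → ℕ := ![0, 1, 0, 1, 2]

lemma col5_lt : ∀ a, col5 a < 3 := by decide

lemma col5_ne : ∀ a b, c5 a b → col5 a ≠ col5 b := by decide

/-- The colouring of the join. -/
def joinCol (t : ℕ) : Fin 5 ⊕ (Fin 5 ⊕ Fin t) → Fin (t + 6)
  | Sum.inl a => ⟨col5 a, by have := col5_lt a; omega⟩
  | Sum.inr (Sum.inl a) => ⟨3 + col5 a, by have := col5_lt a; omega⟩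
  | Sum.inr (Sum.inr a) => ⟨6 + a.val, by omega⟩

lemma joinCol_ne (t : ℕ) : ∀ x y, (join t).Adj x y → joinCol t x ≠ joinCol t y := by
  rintro (a | a | a) (b | b | b) h heq
  · exact col5_ne a b h (by simpa [joinCol] using heq)
  · have h1 := col5_lt a
    have h2 : col5 a = 3 + col5 b := congrArg Fin.val heq
    omega
  · have h1 := col5_lt a
    have h2 : col5 a = 6 + b.val := congrArg Fin.val heq
    omega
  · have h1 := col5_lt b
    have h2 : 3 + col5 a = col5 b := congrArg Fin.val heq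
    omega
  · exact col5_ne a b h (by simpa [joinCol] using heq)
  · have h1 := col5_lt a
    have h2 : 3 + col5 a = 6 + b.val := congrArg Fin.val heq
    omega
  · have h1 := col5_lt b
    have h2 : 6 + a.val = col5 b := congrArg Fin.val heq
    omega
  · have h1 := col5_lt b
    have h2 : 6 + a.val = 3 + col5 b := congrArg Fin.val heq
    omega
  · have h2 : 6 + a.val = 6 + b.val := congrArg Fin.val heq
    exact h (Fin.ext (by omega))

/-- Any proper colouring of the 5-cycle uses at least three colours. -/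
lemma three_le {m : ℕ} (c : Fin 5 → Fin m) (h : ∀ a b, c5 a b → c a ≠ c b) :
    3 ≤ ((univ : Finset (Fin 5)).image c).card := by
  have h5 : ∀ a b d : Fin 5, a ≠ b → a ≠ d → b ≠ d → c5 a b ∨ c5 a d ∨ c5 b d := by decide
  have hfib : ∀ a ∈ (univ : Finset (Fin 5)).image c, (univ.filter (fun x => c x = a)).card ≤ 2 := by
    intro a _
    by_contra hcon
    push Not at hcon
    obtain ⟨x, hx, y, hy, z, hz, hxy, hxz, hyz⟩ := Finset.two_lt_card.1 hcon
    simp only [Finset.mem_filter, Finset.mem_univ, true_and] at hx hy hz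
    rcases h5 x y z hxy hxz hyz with h6 | h6 | h6
    · exact h x y h6 (hx.trans hy.symm)
    · exact h x z h6 (hx.trans hz.symm)
    · exact h y z h6 (hy.trans hz.symm)
  have := Finset.card_le_mul_card_image (univ : Finset (Fin 5)) 2 hfib
  rw [Finset.card_univ, Fintype.card_fin] at this
  omega

lemma c5_clique : ∀ T : Finset (Fin 5), (∀ a ∈ T, ∀ b ∈ T, a ≠ b → c5 a b) → T.card ≤ 2 := by
  decide

lemma join_chromatic (t : ℕ) : (join t).chromaticNumber = (t + 6 : ℕ) := by
  apply chromaticNumber_eq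
  · exact ⟨SimpleGraph.Coloring.mk (joinCol t) (fun {x y} h => joinCol_ne t x y h)⟩
  · rintro m ⟨C⟩
    let A := (univ : Finset (Fin 5)).image fun a => C (Sum.inl a)
    let B := (univ : Finset (Fin 5)).image fun a => C (Sum.inr (Sum.inl a))
    let D := (univ : Finset (Fin t)).image fun a => C (Sum.inr (Sum.inr a))
    have hA : 3 ≤ A.card := three_le _ (fun a b h => C.valid (show (join t).Adj _ _ from h))
    have hB : 3 ≤ B.card := three_le _ (fun a b h => C.valid (show (join t).Adj _ _ from h))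
    have hD : D.card = t := by
      rw [Finset.card_image_of_injective, Finset.card_univ, Fintype.card_fin]
      intro a b hab
      by_contra hne
      exact C.valid (show (join t).Adj (Sum.inr (Sum.inr a)) (Sum.inr (Sum.inr b)) from hne) hab
    have hAB : Disjoint A B := by
      rw [Finset.disjoint_left]
      intro x hx hx2
      obtain ⟨a, _, rfl⟩ := Finset.mem_image.1 hx
      obtain ⟨b, _, hb⟩ := Finset.mem_image.1 hx2
      exact C.valid (show (join t).Adj (Sum.inl a) (Sum.inr (Sum.inl b)) from trivial) hb.symm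
    have hABD : Disjoint (A ∪ B) D := by
      rw [Finset.disjoint_left]
      intro x hx hx2
      obtain ⟨b, _, hb⟩ := Finset.mem_image.1 hx2
      rcases Finset.mem_union.1 hx with hx | hx
      · obtain ⟨a, _, rfl⟩ := Finset.mem_image.1 hx
        exact C.valid (show (join t).Adj (Sum.inl a) (Sum.inr (Sum.inr b)) from trivial) hb.symm
      · obtain ⟨a, _, rfl⟩ := Finset.mem_image.1 hx
        exact C.valid (show (join t).Adj (Sum.inr (Sum.inl a)) (Sum.inr (Sum.inr b)) from trivial)
          hb.symm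
    have h1 := Finset.card_union_of_disjoint hAB
    have h2 := Finset.card_union_of_disjoint hABD
    have h3 := Finset.card_le_univ ((A ∪ B) ∪ D)
    rw [Fintype.card_fin] at h3
    omega

lemma join_cliqueFree (t : ℕ) : (join t).CliqueFree (t + 6 - 1) := by
  intro s hs
  have hcl := hs.isClique
  have hcard := hs.card_eq
  have h1 : s.toLeft.card ≤ 2 := by
    apply c5_clique
    intro a ha b hb hab
    rw [Finset.mem_toLeft] at ha hb
    exact hcl (by simpa using ha) (by simpa using hb) (fun h => hab (Sum.inl_injective h))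
  have h2 : s.toRight.toLeft.card ≤ 2 := by
    apply c5_clique
    intro a ha b hb hab
    rw [Finset.mem_toLeft, Finset.mem_toRight] at ha hb
    exact hcl (by simpa using ha) (by simpa using hb)
      (fun h => hab (Sum.inl_injective (Sum.inr_injective h)))
  have h3 : s.toRight.toRight.card ≤ t := by
    simpa using Finset.card_le_univ s.toRight.toRight
  have h4 := Finset.card_toLeft_add_card_toRight (u := s)
  have h5 := Finset.card_toLeft_add_card_toRight (u := s.toRight)
  omega

lemma join_hasGraph (t : ℕ) : HasGraph (t + 6) (t + 9) := by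
  refine ⟨_, inferInstance, join t, inferInstance, join_chromatic t, join_cliqueFree t, ?_⟩
  apply SimpleGraph.maxDegree_le_of_forall_degree_le
  intro v
  have h1 := (join t).degree_lt_card_verts v
  have h2 : Fintype.card (Fin 5 ⊕ (Fin 5 ⊕ Fin t)) = 10 + t := by
    simp only [Fintype.card_sum, Fintype.card_fin]; omega
  omega

lemma six : HasGraph 6 7 := by
  refine ⟨_, inferInstance, join 0, inferInstance, join_chromatic 0, join_cliqueFree 0, ?_⟩
  apply SimpleGraph.maxDegree_le_of_forall_degree_le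
  decide +kernel

lemma HasGraph.mono {k d d' : ℕ} (h : HasGraph k d) (hd : d ≤ d') : HasGraph k d' := by
  obtain ⟨V, h1, G, h2, h3, h4, h5⟩ := h
  exact ⟨V, h1, G, h2, h3, h4, h5.trans hd⟩

lemma blow8 : HasGraph 8 8 :=
  blow_main (n := 15) (fun x => ([0, 0, 0, 1, 1, 1, 2, 2, 2, 3, 3, 3, 4, 4, 4] : List (Fin 5)).getD x.val 0)
    (fun x => ([7, 1, 0, 6, 5, 4, 3, 2, 1, 7, 6, 5, 4, 3, 2] : List (Fin 8)).getD x.val 0) rfl (by decide)
    (by decide +kernel) (by decide +kernel) (by decide +kernel)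

lemma blow9 : HasGraph 9 10 :=
  blow_main (n := 17) (fun x => ([0, 0, 0, 1, 1, 1, 2, 2, 2, 2, 3, 3, 3, 4, 4, 4, 4] : List (Fin 5)).getD x.val 0)
    (fun x => ([8, 1, 0, 7, 6, 5, 4, 3, 2, 1, 8, 7, 6, 5, 4, 3, 2] : List (Fin 9)).getD x.val 0) rfl (by decide)
    (by decide +kernel) (by decide +kernel) (by decide +kernel)

lemma blow10 : HasGraph 10 11 :=
  blow_main (n := 19) (fun x => ([0, 0, 0, 1, 1, 1, 1, 2, 2, 2, 2, 3, 3, 3, 4, 4, 4, 4, 4] : List (Fin 5)).getD x.val 0)
    (fun x => ([9, 1, 0, 8, 7, 6, 5, 4, 3, 2, 1, 9, 8, 7, 6, 5, 4, 3, 2] : List (Fin 10)).getD x.val 0) rfl (by decide)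
    (by decide +kernel) (by decide +kernel) (by decide +kernel)

lemma blow11 : HasGraph 11 12 :=
  blow_main (n := 21) (fun x => ([0, 0, 0, 1, 1, 1, 1, 1, 2, 2, 2, 2, 3, 3, 3, 3, 4, 4, 4, 4, 4] : List (Fin 5)).getD x.val 0)
    (fun x => ([10, 1, 0, 9, 8, 7, 6, 5, 4, 3, 2, 1, 10, 9, 8, 7, 6, 5, 4, 3, 2] : List (Fin 11)).getD x.val 0) rfl (by decide)
    (by decide +kernel) (by decide +kernel) (by decide +kernel)

lemma blow12 : HasGraph 12 13 :=
  blow_main (n := 23) (fun x => ([0, 0, 0, 0, 1, 1, 1, 1, 1, 2, 2, 2, 2, 3, 3, 3, 3, 3, 4, 4, 4, 4, 4] : List (Fin 5)).getD x.val 0)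
    (fun x => ([11, 10, 1, 0, 9, 8, 7, 6, 5, 4, 3, 2, 1, 11, 10, 9, 8, 7, 6, 5, 4, 3, 2] : List (Fin 12)).getD x.val 0) rfl (by decide)
    (by decide +kernel) (by decide +kernel) (by decide +kernel)

lemma blow13 : HasGraph 13 14 :=
  blow_main (n := 25) (fun x => ([0, 0, 0, 0, 0, 1, 1, 1, 1, 1, 2, 2, 2, 2, 2, 3, 3, 3, 3, 3, 4, 4, 4, 4, 4] : List (Fin 5)).getD x.val 0)
    (fun x => ([12, 11, 2, 1, 0, 10, 9, 8, 7, 6, 5, 4, 3, 2, 1, 12, 11, 10, 9, 8, 7, 6, 5, 4, 3] : List (Fin 13)).getD x.val 0) rfl (by decide)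
    (by decide +kernel) (by decide +kernel) (by decide +kernel)

lemma blow14 : HasGraph 14 16 :=
  blow_main (n := 27) (fun x => ([0, 0, 0, 1, 1, 1, 1, 1, 1, 1, 2, 2, 2, 2, 2, 3, 3, 3, 3, 3, 4, 4, 4, 4, 4, 4, 4] : List (Fin 5)).getD x.val 0)
    (fun x => ([13, 1, 0, 12, 11, 10, 9, 8, 7, 6, 5, 4, 3, 2, 1, 13, 12, 11, 10, 9, 8, 7, 6, 5, 4, 3, 2] : List (Fin 14)).getD x.val 0) rfl (by decide)
    (by decide +kernel) (by decide +kernel) (by decide +kernel)

lemma blow15 : HasGraph 15 17 :=
  blow_main (n := 29) (fun x => ([0, 0, 0, 0, 1, 1, 1, 1, 1, 1, 1, 2, 2, 2, 2, 2, 3, 3, 3, 3, 3, 3, 4, 4, 4, 4, 4, 4, 4] : List (Fin 5)).getD x.val 0)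
    (fun x => ([14, 13, 1, 0, 12, 11, 10, 9, 8, 7, 6, 5, 4, 3, 2, 1, 14, 13, 12, 11, 10, 9, 8, 7, 6, 5, 4, 3, 2] : List (Fin 15)).getD x.val 0) rfl (by decide)
    (by decide +kernel) (by decide +kernel) (by decide +kernel)

lemma blow16 : HasGraph 16 18 :=
  blow_main (n := 31) (fun x => ([0, 0, 0, 0, 0, 1, 1, 1, 1, 1, 1, 1, 2, 2, 2, 2, 2, 3, 3, 3, 3, 3, 3, 3, 4, 4, 4, 4, 4, 4, 4] : List (Fin 5)).getD x.val 0)
    (fun x => ([15, 14, 13, 1, 0, 12, 11, 10, 9, 8, 7, 6, 5, 4, 3, 2, 1, 15, 14, 13, 12, 11, 10, 9, 8, 7, 6, 5, 4, 3, 2] : List (Fin 16)).getD x.val 0) rfl (by decide)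
    (by decide +kernel) (by decide +kernel) (by decide +kernel)

lemma blow17 : HasGraph 17 19 :=
  blow_main (n := 33) (fun x => ([0, 0, 0, 0, 0, 0, 1, 1, 1, 1, 1, 1, 1, 2, 2, 2, 2, 2, 2, 3, 3, 3, 3, 3, 3, 3, 4, 4, 4, 4, 4, 4, 4] : List (Fin 5)).getD x.val 0)
    (fun x => ([16, 15, 14, 2, 1, 0, 13, 12, 11, 10, 9, 8, 7, 6, 5, 4, 3, 2, 1, 16, 15, 14, 13, 12, 11, 10, 9, 8, 7, 6, 5, 4, 3] : List (Fin 17)).getD x.val 0) rfl (by decide)
    (by decide +kernel) (by decide +kernel) (by decide +kernel)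

lemma blow18 : HasGraph 18 20 :=
  blow_main (n := 35) (fun x => ([0, 0, 0, 0, 0, 0, 0, 1, 1, 1, 1, 1, 1, 1, 2, 2, 2, 2, 2, 2, 2, 3, 3, 3, 3, 3, 3, 3, 4, 4, 4, 4, 4, 4, 4] : List (Fin 5)).getD x.val 0)
    (fun x => ([17, 16, 15, 3, 2, 1, 0, 14, 13, 12, 11, 10, 9, 8, 7, 6, 5, 4, 3, 2, 1, 17, 16, 15, 14, 13, 12, 11, 10, 9, 8, 7, 6, 5, 4] : List (Fin 18)).getD x.val 0) rfl (by decide)
    (by decide +kernel) (by decide +kernel) (by decide +kernel)

/-- For every `k ≥ 6` there is a `k`-chromatic graph without `K_{k-1}` of maximum degree at most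
`k + 3`; for `8 ≤ k ≤ 18` there is one of maximum degree at most `k + 2`, and for `k = 6` and
`8 ≤ k ≤ 13` one of maximum degree at most `k + 1`. -/
theorem result (k : ℕ) (hk : 6 ≤ k) : HasGraph k (k + 3) ∧
    (8 ≤ k ∧ k ≤ 18 → HasGraph k (k + 2)) ∧ (k = 6 ∨ (8 ≤ k ∧ k ≤ 13) → HasGraph k (k + 1)) := by
  refine ⟨?_, ?_, ?_⟩
  · obtain ⟨t, rfl⟩ := Nat.exists_eq_add_of_le hk
    rw [Nat.add_comm 6 t]
    exact join_hasGraph t
  · rintro ⟨h1, h2⟩
    interval_cases k
    · exact blow8.mono (by norm_num)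
    · exact blow9.mono (by norm_num)
    · exact blow10.mono (by norm_num)
    · exact blow11.mono (by norm_num)
    · exact blow12.mono (by norm_num)
    · exact blow13.mono (by norm_num)
    · exact blow14
    · exact blow15
    · exact blow16
    · exact blow17
    · exact blow18
  · rintro (rfl | ⟨h1, h2⟩)
    · exact six
    · interval_cases k
      · exact blow8.mono (by norm_num)
      · exact blow9
      · exact blow10
      · exact blow11
      · exact blow12
      · exact blow13

end Pool.Agent.Results.MP_551fda_co.KPlusThree
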